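import Pool.Agent.Helper35_BS.Tools

/-! # BS squad, module FACE: every face is the bounded complementary component of its triangle -/

set_option autoImplicit false

namespace Pool.Agent.BS.H35

open Function Filter Topology Set Pool.Agent.BS

theorem face_stmt (hdraw : DrawStmt) (hjor : JordanStmt) : FaceStmt := by
  intro V G φ γ ctx
  obtain ⟨hd1, hd2, hd3, hO, hdense, hJ, -⟩ := hdraw V G φ γ ctx
  have hsub : ∀ a b c, G.Adj a b → G.Adj b c → G.Adj c a → away G γ ⊆ (trg γ a b c)ᶜ := by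
    intro a b c hab hbc hca y hy hy2
    rcases hy2 with (h | h) | h
    · exact hy a b hab h
    · exact hy b c hbc h
    · exact hy c a hca h
  have htri : ∀ z ∈ away G γ, ∃ a b c, G.Adj a b ∧ G.Adj b c ∧ G.Adj c a ∧
      frontier (face G γ z) = trg γ a b c := fun z hz => ctx.emb.tri z hz
  -- edges are compact
  have hcomp : ∀ a b, G.Adj a b → IsCompact (edg γ a b) := by
    intro a b hab
    exact isCompact_Icc.image_of_continuousOn (ctx.emb.arc a b hab).1
  have htc : ∀ a b c, G.Adj a b → G.Adj b c → G.Adj c a → IsCompact (trg γ a b c) := by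
    intro a b c hab hbc hca
    exact ((hcomp a b hab).union (hcomp b c hbc)).union (hcomp c a hca)
  have heq : ∀ z ∈ away G γ, ∀ a b c, G.Adj a b → G.Adj b c → G.Adj c a →
      frontier (face G γ z) = trg γ a b c →
      face G γ z = connectedComponentIn (trg γ a b c)ᶜ z := by
    intro z hz a b c hab hbc hca hfr
    apply Subset.antisymm
    · exact connectedComponentIn_mono z (hsub a b c hab hbc hca)
    · refine pre_sub_of_frontier isPreconnected_connectedComponentIn
        ⟨z, mem_connectedComponentIn (hsub a b c hab hbc hca hz), mem_face hz⟩ ?_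
      rw [hfr]
      exact Set.disjoint_left.2 fun y hy => connectedComponentIn_subset _ _ hy
  have hbdd : ∀ z ∈ away G γ, ∀ a b c, G.Adj a b → G.Adj b c → G.Adj c a →
      frontier (face G γ z) = trg γ a b c → Bornology.IsBounded (face G γ z) := by
    intro z hz a b c hab hbc hca hfr
    by_contra hb
    have e := heq z hz a b c hab hbc hca hfr
    rw [e] at hb
    obtain ⟨R, hR0, -, hR⟩ := unb_comp (htc a b c hab hbc hca).isBounded
    have h1 := hR z (hsub a b c hab hbc hca hz) hb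
    rw [← e] at h1
    -- all edges are in the ball
    have h2 : ∀ p : V × V, G.Adj p.1 p.2 →
        p ∈ {p : V × V | G.Adj p.1 p.2 ∧
          (γ p.1 p.2 '' Icc 0 1 ∩ Metric.closedBall (0:ℂ) R).Nonempty} := by
      intro p hp
      refine ⟨hp, ?_⟩
      refine ⟨γ p.1 p.2 0, ⟨0, by simp, rfl⟩, ?_⟩
      rw [Metric.mem_closedBall, dist_zero_right]
      by_contra hcon
      push Not at hcon
      have h3 : γ p.1 p.2 0 ∈ away G γ := face_sub z (h1 hcon)
      exact h3 p.1 p.2 hp ⟨0, by simp, rfl⟩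
    have h3 : {p : V × V | G.Adj p.1 p.2}.Finite :=
      (ctx.emb.fin _ (isCompact_closedBall (0:ℂ) R)).subset h2
    have hinf := ctx.inf
    choose f hf using exists_adj ctx.conn ctx.inf
    have h4 : (Set.range fun v : V => (v, f v)).Finite := by
      refine h3.subset ?_
      rintro _ ⟨v, rfl⟩
      exact hf v
    have h5 : Injective fun v : V => (v, f v) := fun v w h => (Prod.ext_iff.1 h).1
    exact (Set.infinite_range_of_injective h5) h4
  have hinj : ∀ z ∈ away G γ, ∀ z' ∈ away G γ,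
      frontier (face G γ z) = frontier (face G γ z') →
      face G γ z = face G γ z' := by
    intro z hz z' hz' hfr
    obtain ⟨a, b, c, hab, hbc, hca, h1⟩ := htri z hz
    have h2 := hfr.symm.trans h1
    have e1 := heq z hz a b c hab hbc hca h1
    have e2 := heq z' hz' a b c hab hbc hca h2
    have b1 := hbdd z hz a b c hab hbc hca h1
    have b2 := hbdd z' hz' a b c hab hbc hca h2
    obtain ⟨-, hj, -⟩ := hjor _ _ _ _ (hJ a b c hab hbc hca)
    have ek : edg γ a b ∪ (edg γ a c ∪ edg γ c b) = trg γ a b c := by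
      unfold trg
      rw [(hd1 b c hbc).2, (hd1 c a hca).2]
      ext y; simp only [mem_union]; tauto
    rw [ek] at hj
    rw [e1, e2]
    rw [e1] at b1
    rw [e2] at b2
    exact hj z (hsub a b c hab hbc hca hz) z' (hsub a b c hab hbc hca hz') b1 b2
  refine ⟨htri, fun z hz a b c hab hbc hca hfr => ⟨heq z hz a b c hab hbc hca hfr,
    hbdd z hz a b c hab hbc hca hfr⟩, hinj, ?_⟩
  intro K hK
  obtain ⟨M, hM⟩ := hK.isBounded.exists_norm_le
  -- the big ball
  set B : Set ℂ := Metric.closedBall (0:ℂ) (max M 0) with hB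
  have hKB : K ⊆ B := by
    intro y hy
    rw [hB, Metric.mem_closedBall, dist_zero_right]
    exact (hM y hy).trans (le_max_left _ _)
  have hBpre : IsPreconnected B := (convex_closedBall _ _).isPreconnected
  have hEf := ctx.emb.fin B (isCompact_closedBall (0:ℂ) _)
  set E : Set (V × V) := {p : V × V | G.Adj p.1 p.2 ∧ (γ p.1 p.2 '' Icc 0 1 ∩ B).Nonempty} with hE
  -- finite set of triangles
  have hT : {S : Set ℂ | ∃ p ∈ E, ∃ c ∈ G.neighborSet p.1, S = trg γ p.1 p.2 c}.Finite := by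
    have : {S : Set ℂ | ∃ p ∈ E, ∃ c ∈ G.neighborSet p.1, S = trg γ p.1 p.2 c} =
        ⋃ p ∈ E, (fun c => trg γ p.1 p.2 c) '' (G.neighborSet p.1) := by
      ext S
      simp only [mem_ofPred_eq, mem_iUnion, mem_image, exists_prop]
      constructor
      · rintro ⟨p, hp, c, hc, rfl⟩; exact ⟨p, hp, c, hc, rfl⟩
      · rintro ⟨p, hp, c, hc, rfl⟩; exact ⟨p, hp, c, hc, rfl⟩
    rw [this]
    exact hEf.biUnion fun p _ => (ctx.locfin p.1).image _
  set F1 : Set (Set ℂ) := {f | ∃ z ∈ away G γ, f = face G γ z ∧ (frontier f ∩ B).Nonempty} with hF1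
  set F2 : Set (Set ℂ) := {f | ∃ z ∈ away G γ, f = face G γ z ∧ B ⊆ f} with hF2
  have hF1fin : F1.Finite := by
    refine Set.Finite.of_finite_image (f := frontier) (hT.subset ?_) ?_
    · rintro _ ⟨f, ⟨z, hz, rfl, ⟨y, hy, hyB⟩⟩, rfl⟩
      obtain ⟨a, b, c, hab, hbc, hca, h1⟩ := htri z hz
      rw [h1] at hy
      rcases hy with (hy | hy) | hy
      · exact ⟨(a, b), ⟨hab, ⟨y, hy, hyB⟩⟩, c, hca.symm, h1⟩
      · refine ⟨(b, c), ⟨hbc, ⟨y, hy, hyB⟩⟩, a, hab.symm, ?_⟩
        rw [h1]; exact (trg_rot a b c).symm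
      · refine ⟨(c, a), ⟨hca, ⟨y, hy, hyB⟩⟩, b, hbc.symm, ?_⟩
        rw [h1]; exact trg_rot c a b
    · rintro f ⟨z, hz, rfl, -⟩ f' ⟨z', hz', rfl, -⟩ h
      exact hinj z hz z' hz' h
  have hF2fin : F2.Finite := by
    refine Set.Subsingleton.finite ?_
    rintro f ⟨z, hz, rfl, h1⟩ f' ⟨z', hz', rfl, h2⟩
    have h0 : (0:ℂ) ∈ B := by
      rw [hB]; simp
    rw [face_eq (h1 h0), face_eq (h2 h0)]
  refine (hF1fin.union hF2fin).subset ?_
  rintro f ⟨z, hz, rfl, ⟨y, hy, hyK⟩⟩
  by_cases hfr : (frontier (face G γ z) ∩ B).Nonempty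
  · exact Or.inl ⟨z, hz, rfl, hfr⟩
  · refine Or.inr ⟨z, hz, rfl, pre_sub_of_frontier hBpre ⟨y, hKB hyK, hy⟩ ?_⟩
    rw [Set.not_nonempty_iff_eq_empty] at hfr
    rw [Set.disjoint_iff_inter_eq_empty, inter_comm]
    exact hfr

end Pool.Agent.BS.H35
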