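import Pool.Agent.Helper35_BS.Tools

/-! # BS squad, module PF: combinatorics of face triangles -/

set_option autoImplicit false

namespace Pool.Agent.BS.H35

open Function Filter Topology Set Pool.Agent.BS

theorem pf (hdraw : DrawStmt) (htwo : TwoFaceStmt) (hopp : OppStmt) : PFStmt := by
  intro V G φ γ ctx
  obtain ⟨hd1, hd2, hd3, hO, hdense, hJ, -⟩ := hdraw V G φ γ ctx
  have htwo := htwo V G φ γ ctx
  have hopp := hopp V G φ γ ctx
  have him : ∀ n : ℤ, ((n : ℂ) * (2 * Real.pi * Complex.I)).im = n * (2 * Real.pi) := by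
    intro n
    have h : ((n : ℂ) * (2 * Real.pi * Complex.I)) = ((n * (2 * Real.pi) : ℝ) : ℂ) * Complex.I := by
      push_cast; ring
    rw [h]
    simp
  have hpi : (0:ℝ) < 2 * Real.pi := by positivity
  have hlr : ∀ a b c, G.Adj a b → G.Adj b c → G.Adj c a → trg γ a c b = trg γ a b c := by
    intro a b c hab hbc hca
    unfold trg
    rw [(hd1 a c hca.symm).2, (hd1 c b hbc.symm).2, (hd1 b a hab.symm).2]
    ext y; simp only [mem_union]; tauto
  have hnz : ∀ a b c, G.Adj a b → G.Adj b c → G.Adj c a → ∀ z ∈ away G γ,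
      frontier (face G γ z) = trg γ a b c →
      0 < (wtr φ γ a b c z).im ∨ (wtr φ γ a b c z).im < 0 := by
    intro a b c hab hbc hca z hz hfr
    obtain ⟨⟨n, hn, hn2⟩, -⟩ := hopp a b c hab hbc hca z hz hfr
    rw [hn2, him]
    rcases lt_or_gt_of_ne hn with h | h
    · right
      have : (n : ℝ) < 0 := by exact_mod_cast h
      exact mul_neg_of_neg_of_pos this hpi
    · left
      have : (0:ℝ) < n := by exact_mod_cast h
      exact mul_pos this hpi
  have hmem : ∀ a b c, G.Adj a b → G.Adj b c → G.Adj c a → φ c ∈ trg γ a b c := by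
    intro a b c hab hbc hca
    obtain ⟨-, -, h0, h1, -⟩ := ctx.emb.arc b c hbc
    exact Or.inl (Or.inr ⟨1, by simp, h1⟩)
  refine ⟨?_, ?_, ?_⟩
  · rintro a b c ⟨hab, hbc, hca, z, hz, hfr, hp⟩
    refine ⟨hbc, hca, hab, z, hz, ?_, ?_⟩
    · rw [hfr]; exact (trg_rot a b c).symm
    · obtain ⟨-, h2, -⟩ := hopp a b c hab hbc hca z hz hfr
      rw [h2]; exact hp
  · intro a b hab
    obtain ⟨z, hz, z', hz', hne, c, c', hbc, hca, hbc', hca', hfr, hfr'⟩ := htwo a b hab
    have h1 := (hopp a b c hab hbc hca z hz hfr).2.2.2.2 c' hbc' hca' z' hz' hfr' hne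
    have hex : ∃ c, PF G φ γ a b c := by
      rcases hnz a b c hab hbc hca z hz hfr with h | h
      · exact ⟨c, hab, hbc, hca, z, hz, hfr, h⟩
      · refine ⟨c', hab, hbc', hca', z', hz', hfr', ?_⟩
        rw [h1, Complex.neg_im]; linarith
    obtain ⟨c₁, hc₁⟩ := hex
    refine ⟨c₁, hc₁, ?_⟩
    intro c₂ hc₂
    obtain ⟨-, hb1, ha1, z1, hz1, hf1, hp1⟩ := hc₁
    obtain ⟨-, hb2, ha2, z2, hz2, hf2, hp2⟩ := hc₂
    by_cases hsame : face G γ z1 = face G γ z2
    · have h3 : φ c₂ ∈ trg γ a b c₁ := by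
        rw [← hf1, hsame, hf2]
        exact hmem a b c₂ hab hb2 ha2
      rcases h3 with (h | h) | h
      · rcases hd2 a b c₂ hab h with rfl | rfl
        · exact absurd ha2 (G.loopless.irrefl _)
        · exact absurd hb2 (G.loopless.irrefl _)
      · rcases hd2 b c₁ c₂ hb1 h with rfl | rfl
        · exact absurd hb2 (G.loopless.irrefl _)
        · rfl
      · rcases hd2 c₁ a c₂ ha1 h with rfl | rfl
        · rfl
        · exact absurd ha2 (G.loopless.irrefl _)
    · exfalso
      have h3 := (hopp a b c₁ hab hb1 ha1 z1 hz1 hf1).2.2.2.2 c₂ hb2 ha2 z2 hz2 hf2 hsame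
      rw [h3, Complex.neg_im] at hp2
      linarith
  · intro z hz a b c hab hbc hca hfr
    rcases hnz a b c hab hbc hca z hz hfr with h | h
    · exact Or.inl ⟨hab, hbc, hca, z, hz, hfr, h⟩
    · refine Or.inr ⟨hca.symm, hbc.symm, hab.symm, z, hz, ?_, ?_⟩
      · rw [hfr]; exact (hlr a b c hab hbc hca).symm
      · rw [(hopp a b c hab hbc hca z hz hfr).2.2.1, Complex.neg_im]
        linarith

end Pool.Agent.BS.H35
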