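import Pool.Agent.Helper35_BS.Tools

/-! # BS squad, module STAR: open stars of vertices -/

set_option autoImplicit false

namespace Pool.Agent.BS.H35

open Function Filter Topology Set Pool.Agent.BS

theorem star_stmt (hdraw : DrawStmt) (hface : FaceStmt) (hpf : PFStmt) : StarStmt := by
  intro V G φ γ ctx
  obtain ⟨hd1, hd2, hd3, hO, hdense, hJ, -⟩ := hdraw V G φ γ ctx
  obtain ⟨htri, heq, hinj, hfin⟩ := hface V G φ γ ctx
  obtain ⟨hp1, hp2, hp3⟩ := hpf V G φ γ ctx
  have hne : ∀ {a b : V}, G.Adj a b → a ≠ b := fun h => G.ne_of_adj h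
  have hφ : ∀ {a b : V}, φ a = φ b → a = b := fun h => ctx.emb.inj h
  have hmem : ∀ {a b : V}, G.Adj a b → φ a ∈ edg γ a b ∧ φ b ∈ edg γ a b := by
    intro a b hab
    obtain ⟨-, -, h0, h1, -⟩ := ctx.emb.arc a b hab
    exact ⟨⟨0, by simp, h0⟩, ⟨1, by simp, h1⟩⟩
  have hcomp : ∀ a b, G.Adj a b → IsCompact (edg γ a b) := by
    intro a b hab
    exact isCompact_Icc.image_of_continuousOn (ctx.emb.arc a b hab).1
  have hnbr : ∀ a, ∃ b, G.Adj a b := exists_adj ctx.conn ctx.inf
  have hva : ∀ a, φ a ∉ away G γ := by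
    intro a h
    obtain ⟨b, hb⟩ := hnbr a
    exact not_away_edg hb (hmem hb).1 h
  -- closure of a face
  have hcl : ∀ z ∈ away G γ, closure (face G γ z) = face G γ z ∪ frontier (face G γ z) := by
    intro z hz
    exact closure_eq_self_union_frontier _
  -- vertices in the closure of a face
  have hvcl : ∀ z ∈ away G γ, ∃ x y t, G.Adj x y ∧ G.Adj y t ∧ G.Adj t x ∧
      frontier (face G γ z) = trg γ x y t ∧
      (∀ a, φ a ∈ closure (face G γ z) ↔ (a = x ∨ a = y ∨ a = t)) := by
    intro z hz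
    obtain ⟨x, y, t, hxy, hyt, htx, he⟩ := htri z hz
    refine ⟨x, y, t, hxy, hyt, htx, he, ?_⟩
    intro a
    constructor
    · intro ha
      rw [hcl z hz] at ha
      rcases ha with ha | ha
      · exact absurd (face_sub z ha) (hva a)
      · rw [he] at ha
        rcases ha with (h | h) | h
        · rcases hd2 x y a hxy h with h | h <;> simp [h]
        · rcases hd2 y t a hyt h with h | h <;> simp [h]
        · rcases hd2 t x a htx h with h | h <;> simp [h]
    · intro ha
      apply frontier_subset_closure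
      rw [he]
      rcases ha with rfl | rfl | rfl
      · exact Or.inl (Or.inl (hmem hxy).1)
      · exact Or.inl (Or.inl (hmem hxy).2)
      · exact Or.inl (Or.inr (hmem hyt).2)
  -- the complement of the open star
  have hcompl : ∀ a, (ostar G φ γ a)ᶜ =
      (⋃ p : {p : V × V // G.Adj p.1 p.2 ∧ p.1 ≠ a ∧ p.2 ≠ a}, edg γ p.1.1 p.1.2) ∪
      ⋃ f : {f : Set ℂ // ∃ z ∈ away G γ, f = face G γ z ∧ φ a ∉ closure f}, closure f.1 := by
    intro a
    apply Subset.antisymm
    · intro z hz
      by_cases haw : z ∈ away G γ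
      · right
        rw [mem_iUnion]
        refine ⟨⟨face G γ z, z, haw, rfl, fun h => hz (Or.inr (Or.inr ⟨haw, h⟩))⟩, ?_⟩
        exact subset_closure (mem_face haw)
      · left
        rw [mem_iUnion]
        have hex : ∃ c d, G.Adj c d ∧ z ∈ edg γ c d := by
          by_contra hcon
          push Not at hcon
          exact haw fun c d hcd h => hcon c d hcd h
        obtain ⟨c, d, hcd, hzcd⟩ := hex
        have hvert : ∀ d, d ≠ a → z = φ d → ∃ p : {p : V × V // G.Adj p.1 p.2 ∧ p.1 ≠ a ∧ p.2 ≠ a},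
            z ∈ edg γ p.1.1 p.1.2 := by
          intro d hda hzd
          obtain ⟨x, hx⟩ := hnbr d
          by_cases hxa : x = a
          · subst hxa
            obtain ⟨c, ⟨h1, h2, h3, -⟩, -⟩ := hp2 x d hx.symm
            refine ⟨⟨(d, c), h2, hda, (hne h3)⟩, ?_⟩
            rw [hzd]; exact (hmem h2).1
          · refine ⟨⟨(d, x), hx, hda, hxa⟩, ?_⟩
            rw [hzd]; exact (hmem hx).1
        by_cases hca : c = a
        · subst hca
          by_cases hzd : z = φ d
          · exact hvert d (hne hcd).symm hzd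
          · exact absurd (Or.inr (Or.inl ⟨d, hcd, hzcd, hzd⟩)) hz
        · by_cases hda : d = a
          · subst hda
            by_cases hzc : z = φ c
            · exact hvert c hca hzc
            · refine absurd (Or.inr (Or.inl ⟨c, hcd.symm, ?_, hzc⟩)) hz
              rw [← (hd1 c d hcd).2]; exact hzcd
          · exact ⟨⟨(c, d), hcd, hca, hda⟩, hzcd⟩
    · have hedge : ∀ c d, G.Adj c d → c ≠ a → d ≠ a → ∀ z ∈ edg γ c d, z ∉ ostar G φ γ a := by
        intro c d hcd hca hda z hz hz2
        rcases hz2 with rfl | ⟨b, hab, hzb, hzb2⟩ | ⟨h, -⟩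
        · rcases hd2 c d a hcd hz with h | h
          · exact hca h.symm
          · exact hda h.symm
        · rcases hd3 c d a b hcd hab z hz hzb with ⟨h, -⟩ | ⟨-, h⟩ | ⟨w, hw, h1, h2⟩
          · exact hca h
          · exact hda h
          · rcases h2 with rfl | rfl
            · rcases h1 with h | h
              · exact hca h.symm
              · exact hda h.symm
            · exact hzb2 hw
        · exact not_away_edg hcd hz h
      intro z hz
      rcases hz with hz | hz
      · rw [mem_iUnion] at hz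
        obtain ⟨⟨⟨c, d⟩, hcd, hca, hda⟩, hz⟩ := hz
        exact hedge c d hcd hca hda z hz
      · rw [mem_iUnion] at hz
        obtain ⟨⟨f, y, hy, rfl, hfa⟩, hz⟩ := hz
        change z ∈ closure (face G γ y) at hz
        obtain ⟨u, v, t, huv, hvt, htu, he, hv⟩ := hvcl y hy
        have h1 := (hv a).not.1 hfa
        push Not at h1
        rw [hcl y hy, he] at hz
        rcases hz with hz | (hz | hz) | hz
        · intro hz2
          have haw := face_sub y hz
          rcases hz2 with rfl | ⟨b, hab, hzb, hzb2⟩ | ⟨-, h⟩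
          · exact hva a haw
          · exact not_away_edg hab hzb haw
          · rw [← face_eq hz] at h
            exact hfa h
        · exact hedge u v huv h1.1.symm h1.2.1.symm z hz
        · exact hedge v t hvt h1.2.1.symm h1.2.2.symm z hz
        · exact hedge t u htu h1.2.2.symm h1.1.symm z hz
  have hopen : ∀ a, IsOpen (ostar G φ γ a) := by
    intro a
    rw [← isClosed_compl_iff, hcompl a]
    refine IsClosed.union ?_ ?_
    · refine LocallyFinite.isClosed_iUnion ?_ fun p => (hcomp _ _ p.2.1).isClosed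
      intro z
      refine ⟨Metric.closedBall z 1, Metric.closedBall_mem_nhds z one_pos, ?_⟩
      have h1 := ctx.emb.fin _ (isCompact_closedBall z 1)
      refine Set.Finite.of_finite_image (f := Subtype.val) (h1.subset ?_)
        Subtype.val_injective.injOn
      rintro _ ⟨p, hp, rfl⟩
      exact ⟨p.2.1, hp⟩
    · refine LocallyFinite.isClosed_iUnion (LocallyFinite.closure ?_) fun f => isClosed_closure
      intro z
      refine ⟨Metric.closedBall z 1, Metric.closedBall_mem_nhds z one_pos, ?_⟩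
      have h1 := hfin _ (isCompact_closedBall z 1)
      refine Set.Finite.of_finite_image (f := Subtype.val) (h1.subset ?_)
        Subtype.val_injective.injOn
      rintro _ ⟨⟨f, y, hy, rfl, hfa⟩, hp, rfl⟩
      exact ⟨y, hy, rfl, hp⟩
  -- points of an open star which are not in a face
  have hst : ∀ a z, z ∈ ostar G φ γ a → z ∉ away G γ → z ≠ φ a →
      ∃ b, G.Adj a b ∧ z ∈ edg γ a b ∧ z ≠ φ b := by
    intro a z hz haw hza
    rcases hz with h | h | ⟨h, -⟩
    · exact absurd h hza
    · exact h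
    · exact absurd h haw
  have hv : ∀ a b, φ b ∈ ostar G φ γ a → a = b := by
    intro a b h
    by_cases hab : a = b
    · exact hab
    · obtain ⟨c, hac, h1, h2⟩ := hst a _ h (hva b) (fun h => hab (hφ h).symm)
      rcases hd2 a c b hac h1 with h | h
      · exact h.symm
      · exact absurd (congrArg φ h) h2
  have hpair : ∀ a b z, a ≠ b → z ∈ ostar G φ γ a → z ∈ ostar G φ γ b → z ∉ away G γ →
      G.Adj a b ∧ z ∈ edg γ a b ∧ z ≠ φ a ∧ z ≠ φ b := by
    intro a b z hab hza hzb haw
    have h1 : z ≠ φ a := by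
      rintro rfl
      exact hab (hv b a hzb).symm
    have h2 : z ≠ φ b := by
      rintro rfl
      exact hab (hv a b hza)
    obtain ⟨c, hac, hzc, hzc2⟩ := hst a z hza haw h1
    obtain ⟨d, hbd, hzd, hzd2⟩ := hst b z hzb haw h2
    rcases hd3 a c b d hac hbd z hzc hzd with ⟨h, -⟩ | ⟨rfl, rfl⟩ | ⟨w, hw, h3, -⟩
    · exact absurd h hab
    · exact ⟨hac, hzc, h1, h2⟩
    · rcases h3 with rfl | rfl
      · exact absurd hw h1
      · exact absurd hw hzc2
  have hstf : ∀ a z, z ∈ ostar G φ γ a → z ∈ away G γ → φ a ∈ closure (face G γ z) := by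
    intro a z hz haw
    rcases hz with rfl | ⟨b, hab, h1, -⟩ | ⟨-, h⟩
    · exact absurd haw (hva a)
    · exact absurd haw (not_away_edg hab h1)
    · exact h
  refine ⟨hopen, ?_, ?_, ?_, hv, ?_, ?_, ?_⟩
  · -- connected
    intro a
    have hS : ostar G φ γ a = ⋃₀ {S | S = {φ a} ∨ (∃ b, G.Adj a b ∧ S = edg γ a b \ {φ b}) ∨
        ∃ z ∈ away G γ, φ a ∈ closure (face G γ z) ∧ S = insert (φ a) (face G γ z)} := by
      ext z
      constructor
      · rintro (rfl | ⟨b, hab, h1, h2⟩ | ⟨h1, h2⟩)
        · exact ⟨{φ a}, Or.inl rfl, rfl⟩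
        · exact ⟨edg γ a b \ {φ b}, Or.inr (Or.inl ⟨b, hab, rfl⟩), h1, h2⟩
        · exact ⟨insert (φ a) (face G γ z), Or.inr (Or.inr ⟨z, h1, h2, rfl⟩), Or.inr (mem_face h1)⟩
      · rintro ⟨S, rfl | ⟨b, hab, rfl⟩ | ⟨y, hy, hy2, rfl⟩, hz⟩
        · exact Or.inl hz
        · exact Or.inr (Or.inl ⟨b, hab, hz.1, hz.2⟩)
        · rcases hz with rfl | hz
          · exact Or.inl rfl
          · refine Or.inr (Or.inr ⟨face_sub y hz, ?_⟩)
            rw [← face_eq hz]
            exact hy2
    rw [hS]
    refine isPreconnected_sUnion (φ a) _ ?_ ?_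
    · rintro S (rfl | ⟨b, hab, rfl⟩ | ⟨y, hy, hy2, rfl⟩)
      · rfl
      · exact ⟨(hmem hab).1, fun h => hne hab (hφ h)⟩
      · exact Or.inl rfl
    · rintro S (rfl | ⟨b, hab, rfl⟩ | ⟨y, hy, hy2, rfl⟩)
      · exact isPreconnected_singleton
      · obtain ⟨hc, hi, h0, h1, -⟩ := ctx.emb.arc a b hab
        have e : edg γ a b \ {φ b} = γ a b '' Ico 0 1 := by
          ext z
          constructor
          · rintro ⟨⟨s, hs, rfl⟩, h2⟩
            refine ⟨s, ⟨hs.1, lt_of_le_of_ne hs.2 ?_⟩, rfl⟩
            rintro rfl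
            exact h2 h1
          · rintro ⟨s, hs, rfl⟩
            refine ⟨⟨s, ⟨hs.1, hs.2.le⟩, rfl⟩, fun h2 => ?_⟩
            rw [mem_singleton_iff, ← h1] at h2
            have := hi ⟨hs.1, hs.2.le⟩ (by simp) h2
            exact absurd this (ne_of_lt hs.2)
        rw [e]
        exact isPreconnected_Ico.image _ (hc.mono Ico_subset_Icc_self)
      · refine (face_pre y).subset_closure (subset_insert _ _) ?_
        rintro z (rfl | hz)
        · exact hy2
        · exact subset_closure hz
  · -- covering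
    intro z
    by_cases haw : z ∈ away G γ
    · obtain ⟨x, y, t, -, -, -, -, h⟩ := hvcl z haw
      exact ⟨x, Or.inr (Or.inr ⟨haw, (h x).2 (Or.inl rfl)⟩)⟩
    · have hex : ∃ c d, G.Adj c d ∧ z ∈ edg γ c d := by
        by_contra hcon
        push Not at hcon
        exact haw fun c d hcd h => hcon c d hcd h
      obtain ⟨c, d, hcd, hz⟩ := hex
      by_cases hzd : z = φ d
      · exact ⟨d, Or.inl hzd⟩
      · exact ⟨c, Or.inr (Or.inl ⟨d, hcd, hz, hzd⟩)⟩
  · -- locally finite
    intro z
    refine ⟨Metric.closedBall z 1, Metric.closedBall_mem_nhds z one_pos, ?_⟩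
    have hE := ctx.emb.fin _ (isCompact_closedBall z 1)
    have hF := hfin _ (isCompact_closedBall z 1)
    have hFv : (⋃ f ∈ {f | ∃ y ∈ away G γ, f = face G γ y ∧
        (f ∩ Metric.closedBall z 1).Nonempty}, {a : V | φ a ∈ closure f}).Finite := by
      refine hF.biUnion ?_
      rintro f ⟨y, hy, rfl, -⟩
      obtain ⟨x, y', t, -, -, -, -, h⟩ := hvcl y hy
      refine (Set.toFinite ({x, y', t} : Set V)).subset ?_
      intro a ha
      rcases (h a).1 ha with rfl | rfl | rfl <;> simp
    refine ((hE.image Prod.fst).union hFv).subset ?_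
    rintro a ⟨y, hy, hyB⟩
    rcases hy with rfl | ⟨b, hab, h1, -⟩ | ⟨h1, h2⟩
    · obtain ⟨b, hab⟩ := hnbr a
      exact Or.inl ⟨(a, b), ⟨hab, _, (hmem hab).1, hyB⟩, rfl⟩
    · exact Or.inl ⟨(a, b), ⟨hab, _, h1, hyB⟩, rfl⟩
    · right
      simp only [mem_iUnion]
      exact ⟨face G γ y, ⟨y, h1, rfl, y, mem_face h1, hyB⟩, h2⟩
  · -- pairs
    rintro a b hab ⟨z, hza, hzb⟩
    by_cases haw : z ∈ away G γ
    · obtain ⟨x, y, t, hxy, hyt, htx, -, h⟩ := hvcl z haw
      have h1 := (h a).1 (hstf a z hza haw)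
      have h2 := (h b).1 (hstf b z hzb haw)
      rcases h1 with rfl | rfl | rfl <;> rcases h2 with rfl | rfl | rfl <;>
        first | exact absurd rfl hab | assumption | (refine SimpleGraph.Adj.symm ?_; assumption)
    · exact (hpair a b z hab hza hzb haw).1
  · -- triples
    rintro a b c hab hbc hca ⟨z, ⟨hza, hzb⟩, hzc⟩
    by_cases haw : z ∈ away G γ
    · obtain ⟨x, y, t, hxy, hyt, htx, he, h⟩ := hvcl z haw
      have h1 := (h a).1 (hstf a z hza haw)
      have h2 := (h b).1 (hstf b z hzb haw)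
      have h3 := (h c).1 (hstf c z hzc haw)
      have key := hp3 z haw x y t hxy hyt htx he
      rcases h1 with rfl | rfl | rfl <;> rcases h2 with rfl | rfl | rfl <;>
        rcases h3 with rfl | rfl | rfl <;>
        first
        | exact absurd rfl hab
        | exact absurd rfl hbc
        | exact absurd rfl hca
        | (rcases key with hk | hk
           · first | exact Or.inl hk | exact Or.inr hk | exact Or.inl (hp1 _ _ _ hk) |
               exact Or.inr (hp1 _ _ _ hk) | exact Or.inl (hp1 _ _ _ (hp1 _ _ _ hk)) |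
               exact Or.inr (hp1 _ _ _ (hp1 _ _ _ hk))
           · first | exact Or.inl hk | exact Or.inr hk | exact Or.inl (hp1 _ _ _ hk) |
               exact Or.inr (hp1 _ _ _ hk) | exact Or.inl (hp1 _ _ _ (hp1 _ _ _ hk)) |
               exact Or.inr (hp1 _ _ _ (hp1 _ _ _ hk)))
    · exfalso
      obtain ⟨k1, k2, k3, k4⟩ := hpair a b z hab hza hzb haw
      obtain ⟨m1, m2, m3, m4⟩ := hpair a c z hca.symm hza hzc haw
      rcases hd3 a b a c k1 m1 z k2 m2 with ⟨-, h⟩ | ⟨h, -⟩ | ⟨w, hw, h3, -⟩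
      · exact hbc h
      · exact hca h.symm
      · rcases h3 with rfl | rfl
        · exact k3 hw
        · exact k4 hw
  · -- other stars
    intro a z hz hza
    by_cases haw : z ∈ away G γ
    · obtain ⟨x, y, t, hxy, hyt, htx, he, h⟩ := hvcl z haw
      by_cases hxa : x = a
      · refine ⟨y, ?_, Or.inr (Or.inr ⟨haw, (h y).2 (Or.inr (Or.inl rfl))⟩)⟩
        rw [← hxa]; exact (hne hxy).symm
      · exact ⟨x, hxa, Or.inr (Or.inr ⟨haw, (h x).2 (Or.inl rfl)⟩)⟩
    · obtain ⟨b, hab, h1, h2⟩ := hst a z hz haw hza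
      refine ⟨b, (hne hab).symm, Or.inr (Or.inl ⟨a, hab.symm, ?_, hza⟩)⟩
      rw [← (hd1 a b hab).2]
      exact h1

end Pool.Agent.BS.H35
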