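import Pool.Agent.Helper35_BS.Tools

/-! # BS squad, module TWOFACE: every edge is on two faces -/

set_option autoImplicit false

namespace Pool.Agent.BS.H35

open Function Filter Topology Set Pool.Agent.BS

/-- a point of the closure of a set of points of faces is in the closure of one of the faces -/
theorem closure_face {V : Type} {G : SimpleGraph V} {γ : V → V → ℝ → ℂ}
    (hfin : ∀ K : Set ℂ, IsCompact K →
      {f | ∃ z ∈ away G γ, f = face G γ z ∧ (f ∩ K).Nonempty}.Finite)
    {X : Set ℂ} (hX : X ⊆ away G γ) {w : ℂ} (hw : w ∈ closure X) :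
    ∃ z ∈ X, w ∈ closure (face G γ z) := by
  set B : Set ℂ := Metric.closedBall w 1 with hB
  set F : Set (Set ℂ) := {f | ∃ z ∈ X ∩ B, f = face G γ z} with hF
  have hFfin : F.Finite := by
    refine (hfin B (isCompact_closedBall w 1)).subset ?_
    rintro f ⟨z, ⟨hz, hzB⟩, rfl⟩
    exact ⟨z, hX hz, rfl, z, mem_face (hX hz), hzB⟩
  have h1 : w ∈ closure (X ∩ B) := by
    rw [mem_closure_iff_nhds] at hw ⊢
    intro t ht
    obtain ⟨y, ⟨hy1, hy2⟩, hy3⟩ := hw (t ∩ B) (inter_mem ht (Metric.closedBall_mem_nhds w one_pos))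
    exact ⟨y, hy1, hy3, hy2⟩
  have h2 : X ∩ B ⊆ ⋃₀ F := by
    intro y hy
    exact ⟨face G γ y, ⟨y, hy, rfl⟩, mem_face (hX hy.1)⟩
  have h3 : w ∈ closure (⋃₀ F) := closure_mono h2 h1
  rw [hFfin.closure_sUnion] at h3
  simp only [mem_iUnion] at h3
  obtain ⟨f, ⟨z, hz, rfl⟩, h4⟩ := h3
  exact ⟨z, hz.1, h4⟩

theorem twoface (hdraw : DrawStmt) (hface : FaceStmt) (hjor : JordanStmt) : TwoFaceStmt := by
  intro V G φ γ ctx
  obtain ⟨hd1, hd2, hd3, hO, hdense, hJ, -⟩ := hdraw V G φ γ ctx
  obtain ⟨htri, heq, hinj, hfin⟩ := hface V G φ γ ctx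
  intro a b hab
  -- an interior point of the edge
  obtain ⟨hc, hi, h0, h1, -⟩ := ctx.emb.arc a b hab
  set w : ℂ := γ a b (1/2) with hw
  have hwm : w ∈ edg γ a b := ⟨1/2, by norm_num, rfl⟩
  have hwa : w ≠ φ a := by
    rw [← h0, hw]
    intro h
    have := hi (by norm_num) (by norm_num) h
    norm_num at this
  have hwb : w ≠ φ b := by
    rw [← h1, hw]
    intro h
    have := hi (by norm_num) (by norm_num) h
    norm_num at this
  have hwv : ∀ v, w ≠ φ v := by
    intro v hv
    rcases hd2 a b v hab (hv ▸ hwm) with rfl | rfl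
    · exact hwa hv
    · exact hwb hv
  have hwn : w ∉ away G γ := not_away_edg hab hwm
  -- faces with `w` in the closure contain the edge
  have hkey : ∀ z ∈ away G γ, w ∈ closure (face G γ z) →
      ∃ c, G.Adj b c ∧ G.Adj c a ∧ frontier (face G γ z) = trg γ a b c := by
    intro z hz hcl
    have hfr : w ∈ frontier (face G γ z) := by
      rw [frontier, (face_open hO z).interior_eq]
      exact ⟨hcl, fun h => hwn (face_sub z h)⟩
    obtain ⟨x, y, t, hxy, hyt, htx, he⟩ := htri z hz
    have hedge : ∀ x y t, G.Adj x y → G.Adj y t → G.Adj t x → w ∈ edg γ x y →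
        frontier (face G γ z) = trg γ x y t →
        ∃ c, G.Adj b c ∧ G.Adj c a ∧ frontier (face G γ z) = trg γ a b c := by
      intro x y t hxy hyt htx hwx he
      rcases hd3 a b x y hab hxy w hwm hwx with ⟨rfl, rfl⟩ | ⟨rfl, rfl⟩ | ⟨v, hv, -⟩
      · exact ⟨t, hyt, htx, he⟩
      · refine ⟨t, htx.symm, hyt.symm, ?_⟩
        rw [he]
        unfold trg
        rw [(hd1 a t hyt).2, (hd1 t b htx).2, (hd1 a b hab).2]
        ext u; simp only [mem_union]; tauto
      · exact absurd hv (hwv v)
    rw [he] at hfr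
    rcases hfr with (h | h) | h
    · exact hedge x y t hxy hyt htx h he
    · exact hedge y t x hyt htx hxy h (by rw [he]; exact (trg_rot x y t).symm)
    · exact hedge t x y htx hxy hyt h (by rw [he]; exact trg_rot t x y)
  -- the first face
  obtain ⟨z, hz, hzc⟩ := closure_face hfin (Subset.refl (away G γ)) (hdense w)
  obtain ⟨c, hbc, hca, hfr⟩ := hkey z hz hzc
  obtain ⟨e1, hb1⟩ := heq z hz a b c hab hbc hca hfr
  have hsub : away G γ ⊆ (trg γ a b c)ᶜ := by
    intro y hy hy2
    rcases hy2 with (h | h) | h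
    · exact hy a b hab h
    · exact hy b c hbc h
    · exact hy c a hca h
  have ek : edg γ a b ∪ (edg γ a c ∪ edg γ c b) = trg γ a b c := by
    unfold trg
    rw [(hd1 b c hbc).2, (hd1 c a hca).2]
    ext y; simp only [mem_union]; tauto
  -- the unbounded component of the complement of the triangle
  have htb : Bornology.IsBounded (trg γ a b c) := by
    have hcomp : ∀ a b, G.Adj a b → IsCompact (edg γ a b) := by
      intro a b hab
      exact isCompact_Icc.image_of_continuousOn (ctx.emb.arc a b hab).1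
    exact (((hcomp a b hab).union (hcomp b c hbc)).union (hcomp c a hca)).isBounded
  obtain ⟨u, hu, hub⟩ := exists_unb_comp htb
  obtain ⟨-, -, hj⟩ := hjor _ _ _ _ (hJ a b c hab hbc hca)
  rw [ek] at hj
  have hwU : w ∈ closure (connectedComponentIn (trg γ a b c)ᶜ u) :=
    hj z (hsub hz) (e1 ▸ hb1) u hu hub w hwm hwa hwb
  have hUo : IsOpen (connectedComponentIn (trg γ a b c)ᶜ u) := by
    refine IsOpen.connectedComponentIn ?_
    rw [isOpen_compl_iff]
    rw [← hfr]
    exact isClosed_frontier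
  have hwU2 : w ∈ closure (connectedComponentIn (trg γ a b c)ᶜ u ∩ away G γ) := by
    exact closure_minimal (Dense.open_subset_closure_inter hdense hUo) isClosed_closure hwU
  obtain ⟨z', ⟨hz'U, hz'⟩, hz'c⟩ := closure_face hfin inter_subset_right hwU2
  obtain ⟨c', hbc', hca', hfr'⟩ := hkey z' hz' hz'c
  refine ⟨z, hz, z', hz', ?_, c, c', hbc, hca, hbc', hca', hfr, hfr'⟩
  intro h
  have h2 : z' ∈ connectedComponentIn (trg γ a b c)ᶜ z := by
    rw [← e1, h]
    exact mem_face hz'
  have h3 := connectedComponentIn_eq h2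
  have h4 := connectedComponentIn_eq hz'U
  apply hub
  rw [h4, ← h3, ← e1]
  exact hb1

end Pool.Agent.BS.H35
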