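import Pool.Agent.Helper47_BS.StmtsT

/-! # BS squad: common tools for the modules on the embedded graph -/

set_option autoImplicit false

namespace Pool.Agent.BS.H35

open Function Filter Topology Set Pool.Agent.BS

/-- a preconnected set that meets `U` but not the frontier of `U` is inside `U` -/
theorem pre_sub_of_frontier {X : Type*} [TopologicalSpace X] {C U : Set X} (hC : IsPreconnected C)
    (hne : (C ∩ U).Nonempty) (hfr : Disjoint C (frontier U)) : C ⊆ U := by
  have h1 : C ⊆ interior U ∪ (closure U)ᶜ := by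
    intro x hx
    by_cases h : x ∈ interior U
    · exact Or.inl h
    · refine Or.inr fun hcl => ?_
      exact Set.disjoint_left.1 hfr hx ⟨hcl, h⟩
  have h2 : C ⊆ interior U := by
    refine hC.subset_left_of_subset_union isOpen_interior isClosed_closure.isOpen_compl ?_ h1 ?_
    · exact Set.disjoint_left.2 fun x hx hx' => hx' (subset_closure (interior_subset hx))
    · obtain ⟨x, hxC, hxU⟩ := hne
      rcases h1 hxC with h | h
      · exact ⟨x, hxC, h⟩
      · exact absurd (subset_closure hxU) h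
  exact h2.trans interior_subset

theorem pre_far (R : ℝ) (hR : 0 ≤ R) : IsPreconnected {z : ℂ | R < ‖z‖} := by
  have h : {z : ℂ | R < ‖z‖} =
      (fun p : ℝ × ℝ => (p.1 : ℂ) * Complex.exp (p.2 * Complex.I)) '' (Ioi R ×ˢ univ) := by
    ext z
    constructor
    · intro hz
      refine ⟨(‖z‖, z.arg), ⟨hz, mem_univ _⟩, ?_⟩
      exact Complex.norm_mul_exp_arg_mul_I z
    · rintro ⟨⟨r, t⟩, ⟨hr, -⟩, rfl⟩
      have hr' : R < r := hr
      have h0 : 0 < r := lt_of_le_of_lt hR hr'
      change R < ‖(r : ℂ) * Complex.exp (t * Complex.I)‖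
      rw [norm_mul, Complex.norm_exp_ofReal_mul_I, mul_one, Complex.norm_real, Real.norm_eq_abs,
        abs_of_pos h0]
      exact hr'
  rw [h]
  exact (isPreconnected_Ioi.prod isPreconnected_univ).image _ (by fun_prop)

theorem far_unbounded (R : ℝ) (hR : 0 ≤ R) : ¬ Bornology.IsBounded {z : ℂ | R < ‖z‖} := by
  intro h
  obtain ⟨M, hM⟩ := h.exists_norm_le
  have h1 : ((R + |M| + 1 : ℝ) : ℂ) ∈ {z : ℂ | R < ‖z‖} := by
    change R < ‖((R + |M| + 1 : ℝ) : ℂ)‖
    rw [Complex.norm_real, Real.norm_eq_abs]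
    have := abs_nonneg M
    rw [abs_of_pos (by linarith)]
    linarith
  have h2 := hM _ h1
  rw [Complex.norm_real, Real.norm_eq_abs] at h2
  have h3 := abs_nonneg M
  have h4 := le_abs_self M
  rw [abs_of_pos (by linarith)] at h2
  linarith

/-- unbounded components of the complement of a bounded set contain everything far away -/
theorem unb_comp {K : Set ℂ} (hK : Bornology.IsBounded K) :
    ∃ R : ℝ, 0 ≤ R ∧ (∀ y : ℂ, R < ‖y‖ → y ∉ K) ∧
      ∀ z, z ∉ K → ¬ Bornology.IsBounded (connectedComponentIn Kᶜ z) →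
        {y : ℂ | R < ‖y‖} ⊆ connectedComponentIn Kᶜ z := by
  obtain ⟨M, hM⟩ := hK.exists_norm_le
  refine ⟨max M 0, le_max_right _ _, ?_, ?_⟩
  · intro y hy hyK
    exact absurd (hM y hyK) (not_le.2 (lt_of_le_of_lt (le_max_left _ _) hy))
  · intro z _ hb
    have hfar : {y : ℂ | max M 0 < ‖y‖} ⊆ Kᶜ := by
      intro y hy hyK
      exact absurd (hM y hyK) (not_le.2 (lt_of_le_of_lt (le_max_left _ _) hy))
    have hex : ∃ y ∈ connectedComponentIn Kᶜ z, max M 0 < ‖y‖ := by
      by_contra hcon
      push Not at hcon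
      apply hb
      refine (Metric.isBounded_closedBall (x := (0 : ℂ)) (r := max M 0)).subset ?_
      intro y hy
      simpa using hcon y hy
    obtain ⟨y, hy, hy2⟩ := hex
    rw [connectedComponentIn_eq hy]
    exact (pre_far _ (le_max_right _ _)).subset_connectedComponentIn hy2 hfar

/-- there is an unbounded component -/
theorem exists_unb_comp {K : Set ℂ} (hK : Bornology.IsBounded K) :
    ∃ z, z ∉ K ∧ ¬ Bornology.IsBounded (connectedComponentIn Kᶜ z) := by
  obtain ⟨R, hR0, hR, -⟩ := unb_comp hK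
  have hz : R < ‖((R + 1 : ℝ) : ℂ)‖ := by
    rw [Complex.norm_real, Real.norm_eq_abs, abs_of_pos (by linarith)]
    linarith
  refine ⟨((R + 1 : ℝ) : ℂ), hR _ hz, fun hb => ?_⟩
  have h1 : {y : ℂ | R < ‖y‖} ⊆ connectedComponentIn Kᶜ ((R + 1 : ℝ) : ℂ) :=
    (pre_far _ hR0).subset_connectedComponentIn hz fun y hy => hR y hy
  exact far_unbounded R hR0 (hb.subset h1)

theorem exists_adj {V : Type} {G : SimpleGraph V} (hc : G.Connected) (hi : Infinite V) (v : V) :
    ∃ w, G.Adj v w := by
  obtain ⟨w, hw⟩ := exists_ne v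
  obtain ⟨p⟩ := hc.preconnected v w
  cases p with
  | nil => exact absurd rfl hw
  | cons h _ => exact ⟨_, h⟩

section
variable {V : Type} {G : SimpleGraph V} {φ : V → ℂ} {γ : V → V → ℝ → ℂ}

theorem face_open (hO : IsOpen (away G γ)) (z : ℂ) : IsOpen (face G γ z) :=
  hO.connectedComponentIn

theorem face_sub (z : ℂ) : face G γ z ⊆ away G γ := connectedComponentIn_subset _ _

theorem mem_face {z : ℂ} (h : z ∈ away G γ) : z ∈ face G γ z := mem_connectedComponentIn h

theorem face_pre (z : ℂ) : IsPreconnected (face G γ z) := isPreconnected_connectedComponentIn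

theorem face_eq {z z' : ℂ} (h : z' ∈ face G γ z) : face G γ z = face G γ z' :=
  connectedComponentIn_eq h

theorem not_away_edg {a b : V} (h : G.Adj a b) {z : ℂ} (hz : z ∈ edg γ a b) : z ∉ away G γ :=
  fun h2 => h2 a b h hz

theorem trg_rot (a b c : V) : trg γ b c a = trg γ a b c := by
  unfold trg
  ext z
  simp only [mem_union]
  tauto

end

end Pool.Agent.BS.H35
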